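import Pool.Agent.helper84.LP.SpecP

/-!
# MP_07c750, project LP, row NFR (helper23)

Near and far.
-/

open MeasureTheory Set

set_option autoImplicit false

namespace Pool.Agent.LP

noncomputable section

/-- the kernel -/
def NFR_K (lam : ℝ) (V : Set ℝ) (x : ℝ) : ℂ := ∫ v in V, ee (lam * x * v)

theorem NFR_ee_cont (s : ℝ) : Continuous (fun v : ℝ => ee (s * v)) := by
  unfold ee; fun_prop

theorem NFR_ee_norm (s : ℝ) : ‖ee s‖ = 1 := by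
  unfold ee; exact Complex.norm_exp_ofReal_mul_I s

theorem NFR_ee_conj (s : ℝ) : (starRingEnd ℂ) (ee s) = ee (-s) := by
  unfold ee
  rw [← Complex.exp_conj]
  congr 1
  rw [map_mul, Complex.conj_ofReal, Complex.conj_I]
  push_cast; ring

theorem NFR_ee_mul (s t : ℝ) : ee s * ee t = ee (s + t) := by
  unfold ee
  rw [← Complex.exp_add]
  congr 1
  push_cast; ring

theorem NFR_int (V : Set ℝ) (hV : V ⊆ Icc (-4 : ℝ) 4) (s : ℝ) : IntegrableOn (fun v : ℝ => ee (s * v)) V :=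
  ((NFR_ee_cont s).integrableOn_Icc (a := (-4 : ℝ)) (b := 4)).mono_set hV

theorem NFR_K_conj (lam : ℝ) (V : Set ℝ) (x : ℝ) : ‖NFR_K lam V (-x)‖ = ‖NFR_K lam V x‖ := by
  have h : NFR_K lam V (-x) = (starRingEnd ℂ) (NFR_K lam V x) := by
    unfold NFR_K
    rw [← integral_conj]
    congr 1
    funext v
    rw [NFR_ee_conj]
    congr 1; ring
  rw [h]
  exact RCLike.norm_conj _

/-- expansion of the square -/
theorem NFR_exp (lam : ℝ) (V : Set ℝ) (hV : V ⊆ Icc (-4 : ℝ) 4) (S : Finset ℤ) (b : ℤ → ℂ) :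
    ∫ v in V, ‖∑ d ∈ S, b d * ee (lam * d * v)‖ ^ 2 =
      ∑ d ∈ S, ∑ d' ∈ S, (b d * (starRingEnd ℂ) (b d') * NFR_K lam V ((d : ℝ) - (d' : ℝ))).re := by
  have hp : ∀ v : ℝ, ‖∑ d ∈ S, b d * ee (lam * d * v)‖ ^ 2 =
      Complex.reCLM (∑ d ∈ S, ∑ d' ∈ S, b d * (starRingEnd ℂ) (b d') * ee (lam * ((d : ℝ) - (d' : ℝ)) * v)) := by
    intro v
    have h1 : (((‖∑ d ∈ S, b d * ee (lam * d * v)‖ ^ 2 : ℝ)) : ℂ) =
        ∑ d ∈ S, ∑ d' ∈ S, b d * (starRingEnd ℂ) (b d') * ee (lam * ((d : ℝ) - (d' : ℝ)) * v) := by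
      rw [← Complex.normSq_eq_norm_sq, ← Complex.mul_conj, map_sum, Finset.sum_mul_sum]
      refine Finset.sum_congr rfl fun d _ => Finset.sum_congr rfl fun d' _ => ?_
      rw [map_mul, NFR_ee_conj]
      have h2 : ee (lam * d * v) * ee (-(lam * d' * v)) = ee (lam * ((d : ℝ) - (d' : ℝ)) * v) := by
        rw [NFR_ee_mul]; congr 1; ring
      rw [← h2]; ring
    rw [← h1]
    exact (Complex.ofReal_re _).symm
  have hi : ∀ d ∈ S, ∀ d' ∈ S, Integrable (fun v : ℝ => b d * (starRingEnd ℂ) (b d') * ee (lam * ((d : ℝ) - (d' : ℝ)) * v)) (volume.restrict V) := by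
    intro d _ d' _
    exact (NFR_int V hV (lam * ((d : ℝ) - (d' : ℝ)))).const_mul _
  have hi2 : ∀ d ∈ S, Integrable (fun v : ℝ => ∑ d' ∈ S, b d * (starRingEnd ℂ) (b d') * ee (lam * ((d : ℝ) - (d' : ℝ)) * v)) (volume.restrict V) := by
    intro d hd
    exact integrable_finsetSum _ fun d' hd' => hi d hd d' hd'
  simp only [hp]
  rw [ContinuousLinearMap.integral_comp_comm Complex.reCLM (integrable_finsetSum _ hi2), integral_finsetSum _ hi2]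
  rw [map_sum]
  refine Finset.sum_congr rfl fun d hd => ?_
  rw [integral_finsetSum _ (hi d hd), map_sum]
  refine Finset.sum_congr rfl fun d' _ => ?_
  rw [integral_const_mul]
  rfl

/-- number of windows -/
theorem NFR_cnt (R B d d' : ℤ) (hR : 0 ≤ R) (h1 : -B ≤ d - R) (h2 : d ≤ B) (h3 : -B ≤ d' - R) (h4 : d' ≤ B) :
    ∑ r ∈ Finset.Icc (-B) B, (if (r ≤ d ∧ d < r + R) ∧ (r ≤ d' ∧ d' < r + R) then (1 : ℝ) else 0) = max 0 ((R : ℝ) - |(d : ℝ) - d'|) := by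
  have hs : ((Finset.Icc (-B) B).filter fun r => (r ≤ d ∧ d < r + R) ∧ (r ≤ d' ∧ d' < r + R)) = Finset.Ioc (max d d' - R) (min d d') := by
    ext r
    simp only [Finset.mem_filter, Finset.mem_Icc, Finset.mem_Ioc]
    rcases le_total d d' with h | h
    · rw [max_eq_right h, min_eq_left h]
      constructor
      · rintro ⟨-, ⟨h5, h6⟩, h7, h8⟩
        exact ⟨by omega, by omega⟩
      · rintro ⟨h5, h6⟩
        exact ⟨⟨by omega, by omega⟩, ⟨by omega, by omega⟩, by omega, by omega⟩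
    · rw [max_eq_left h, min_eq_right h]
      constructor
      · rintro ⟨-, ⟨h5, h6⟩, h7, h8⟩
        exact ⟨by omega, by omega⟩
      · rintro ⟨h5, h6⟩
        exact ⟨⟨by omega, by omega⟩, ⟨by omega, by omega⟩, by omega, by omega⟩
  rw [← Finset.sum_filter, hs, Finset.sum_const, Int.card_Ioc, nsmul_eq_mul, mul_one]
  have h5 : min d d' - (max d d' - R) = R - |d - d'| := by
    rcases le_total d d' with h | h
    · rw [max_eq_right h, min_eq_left h, abs_of_nonpos (by omega)]; ring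
    · rw [max_eq_left h, min_eq_right h, abs_of_nonneg (by omega)]; ring
  rw [h5]
  have h6 : (((R - |d - d'|).toNat : ℤ)) = max (R - |d - d'|) 0 := Int.toNat_eq_max _
  have h7 : (((R - |d - d'|).toNat : ℕ) : ℝ) = (((R - |d - d'|).toNat : ℤ) : ℝ) := by norm_cast
  rw [h7, h6]
  push_cast
  rw [max_comm]

/-- sum over the windows -/
theorem NFR_win (R B : ℤ) (hR : 0 ≤ R) (D : Finset ℤ) (hD : ∀ d ∈ D, -B ≤ d - R ∧ d ≤ B) (A : ℤ → ℤ → ℝ) :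
    ∑ r ∈ Finset.Icc (-B) B, ∑ d ∈ D.filter (fun d : ℤ => r ≤ d ∧ d < r + R), ∑ d' ∈ D.filter (fun d : ℤ => r ≤ d ∧ d < r + R), A d d' =
      ∑ d ∈ D, ∑ d' ∈ D, A d d' * max 0 ((R : ℝ) - |(d : ℝ) - d'|) := by
  have h1 : ∀ r : ℤ, ∑ d ∈ D.filter (fun d : ℤ => r ≤ d ∧ d < r + R), ∑ d' ∈ D.filter (fun d : ℤ => r ≤ d ∧ d < r + R), A d d' =
      ∑ d ∈ D, ∑ d' ∈ D, A d d' * (if (r ≤ d ∧ d < r + R) ∧ (r ≤ d' ∧ d' < r + R) then (1 : ℝ) else 0) := by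
    intro r
    rw [Finset.sum_filter]
    refine Finset.sum_congr rfl fun d _ => ?_
    split_ifs with hd
    · rw [Finset.sum_filter]
      refine Finset.sum_congr rfl fun d' _ => ?_
      by_cases hd' : r ≤ d' ∧ d' < r + R
      · rw [if_pos hd', if_pos ⟨hd, hd'⟩, mul_one]
      · rw [if_neg hd', if_neg (fun h => hd' h.2), mul_zero]
    · symm
      refine Finset.sum_eq_zero fun d' _ => ?_
      rw [if_neg (fun h => hd h.1), mul_zero]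
  simp only [h1]
  rw [Finset.sum_comm]
  refine Finset.sum_congr rfl fun d hd => ?_
  rw [Finset.sum_comm]
  refine Finset.sum_congr rfl fun d' hd' => ?_
  rw [← Finset.mul_sum, NFR_cnt R B d d' hR (hD d hd).1 (hD d hd).2 (hD d' hd').1 (hD d' hd').2]

theorem NFR_win1 (R B : ℤ) (hR : 0 ≤ R) (D : Finset ℤ) (hD : ∀ d ∈ D, -B ≤ d - R ∧ d ≤ B) (A : ℤ → ℝ) :
    ∑ r ∈ Finset.Icc (-B) B, ∑ d ∈ D.filter (fun d : ℤ => r ≤ d ∧ d < r + R), A d = ∑ d ∈ D, A d * (R : ℝ) := by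
  have h1 : ∀ r : ℤ, ∑ d ∈ D.filter (fun d : ℤ => r ≤ d ∧ d < r + R), A d =
      ∑ d ∈ D, A d * (if (r ≤ d ∧ d < r + R) ∧ (r ≤ d ∧ d < r + R) then (1 : ℝ) else 0) := by
    intro r
    rw [Finset.sum_filter]
    refine Finset.sum_congr rfl fun d _ => ?_
    by_cases hd : r ≤ d ∧ d < r + R
    · rw [if_pos hd, if_pos ⟨hd, hd⟩, mul_one]
    · rw [if_neg hd, if_neg (fun h => hd h.2), mul_zero]
  simp only [h1]
  rw [Finset.sum_comm]
  refine Finset.sum_congr rfl fun d hd => ?_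
  rw [← Finset.mul_sum, NFR_cnt R B d d hR (hD d hd).1 (hD d hd).2 (hD d hd).1 (hD d hd).2, sub_self, abs_zero, sub_zero, max_eq_right (by exact_mod_cast hR)]

theorem NFR_proof : NFR_stmt := by
  classical
  intro H lam Q1 Q2 V D hH _ hV hQ1 hnear hfar b
  obtain ⟨B, hB⟩ : ∃ B : ℤ, ∀ d ∈ D, |d| ≤ B := by
    refine ⟨∑ d ∈ D, |d|, fun d hd => Finset.single_le_sum (f := fun d : ℤ => |d|) (fun i _ => abs_nonneg i) hd⟩
  have hH1 : (1 : ℝ) ≤ H := by exact_mod_cast hH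
  have hBB : ∀ d ∈ D, -(B + 2 * (H : ℤ)) ≤ d - 2 * (H : ℤ) ∧ d ≤ B + 2 * (H : ℤ) := by
    intro d hd
    have h := abs_le.1 (hB d hd)
    exact ⟨by omega, by omega⟩
  have hBB1 : ∀ d ∈ D, -(B + 2 * (H : ℤ)) ≤ d - (H : ℤ) ∧ d ≤ B + 2 * (H : ℤ) := by
    intro d hd
    have h := abs_le.1 (hB d hd)
    exact ⟨by omega, by omega⟩
  set A : ℤ → ℤ → ℝ := fun d d' => (b d * (starRingEnd ℂ) (b d') * NFR_K lam V ((d : ℝ) - (d' : ℝ))).re with hA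
  -- the near part
  have hn : ∑ d ∈ D, ∑ d' ∈ D, A d d' * max 0 (((2 * (H : ℤ) : ℤ) : ℝ) - |(d : ℝ) - d'|) ≤ Q1 * (2 * H) * ∑ d ∈ D, ‖b d‖ ^ 2 := by
    rw [← NFR_win (2 * (H : ℤ)) (B + 2 * (H : ℤ)) (by omega) D hBB A]
    calc ∑ r ∈ Finset.Icc (-(B + 2 * (H : ℤ))) (B + 2 * (H : ℤ)), ∑ d ∈ D.filter (fun d : ℤ => r ≤ d ∧ d < r + 2 * (H : ℤ)), ∑ d' ∈ D.filter (fun d : ℤ => r ≤ d ∧ d < r + 2 * (H : ℤ)), A d d'
        ≤ ∑ r ∈ Finset.Icc (-(B + 2 * (H : ℤ))) (B + 2 * (H : ℤ)), Q1 * ∑ d ∈ D.filter (fun d : ℤ => r ≤ d ∧ d < r + 2 * (H : ℤ)), ‖b d‖ ^ 2 := by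
          refine Finset.sum_le_sum fun r _ => ?_
          rw [← NFR_exp lam V hV]
          exact hnear r b
      _ = Q1 * (2 * H) * ∑ d ∈ D, ‖b d‖ ^ 2 := by
          rw [← Finset.mul_sum, NFR_win1 (2 * (H : ℤ)) (B + 2 * (H : ℤ)) (by omega) D hBB (fun d => ‖b d‖ ^ 2), ← Finset.sum_mul]
          push_cast; ring
  have hz : 0 ≤ ∑ d ∈ D, ∑ d' ∈ D, A d d' * max 0 ((((H : ℤ)) : ℝ) - |(d : ℝ) - d'|) := by
    rw [← NFR_win ((H : ℤ)) (B + 2 * (H : ℤ)) (by omega) D hBB1 A]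
    refine Finset.sum_nonneg fun r _ => ?_
    rw [← NFR_exp lam V hV]
    exact integral_nonneg fun v => by positivity
  -- Schur
  have hK : ∀ d d' : ℤ, |A d d'| ≤ ‖b d‖ * ‖b d'‖ * ‖NFR_K lam V ((d' : ℝ) - (d : ℝ))‖ := by
    intro d d'
    have h1 := Complex.abs_re_le_norm (b d * (starRingEnd ℂ) (b d') * NFR_K lam V ((d : ℝ) - (d' : ℝ)))
    rw [norm_mul, norm_mul, RCLike.norm_conj] at h1
    have h2 : (d : ℝ) - (d' : ℝ) = -((d' : ℝ) - (d : ℝ)) := by ring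
    rw [h2, NFR_K_conj] at h1
    rw [← h2] at h1
    exact h1
  set W : ℤ → ℤ → ℝ := fun d d' => if (H : ℤ) ≤ |d' - d| then ‖NFR_K lam V ((d' : ℝ) - (d : ℝ))‖ else 0 with hW
  have hWs : ∀ d d' : ℤ, W d d' = W d' d := by
    intro d d'
    simp only [hW]
    rw [abs_sub_comm d' d]
    have h2 : (d' : ℝ) - (d : ℝ) = -((d : ℝ) - (d' : ℝ)) := by ring
    rw [h2, NFR_K_conj]
  have hW0 : ∀ d d' : ℤ, 0 ≤ W d d' := by
    intro d d'
    simp only [hW]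
    split_ifs
    · exact norm_nonneg _
    · exact le_refl _
  have hWq : ∀ d ∈ D, ∑ d' ∈ D, W d d' ≤ Q2 := by
    intro d hd
    have h := hfar d hd
    rw [Finset.sum_filter] at h
    exact h
  have hfarb : ∑ d ∈ D, ∑ d' ∈ D, ‖b d‖ * ‖b d'‖ * W d d' ≤ Q2 * ∑ d ∈ D, ‖b d‖ ^ 2 := by
    have h1 : ∑ d ∈ D, ∑ d' ∈ D, ‖b d‖ * ‖b d'‖ * W d d' ≤ ∑ d ∈ D, ∑ d' ∈ D, (‖b d‖ ^ 2 / 2 * W d d' + ‖b d'‖ ^ 2 / 2 * W d d') := by
      refine Finset.sum_le_sum fun d _ => Finset.sum_le_sum fun d' _ => ?_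
      have h2 : ‖b d‖ * ‖b d'‖ ≤ ‖b d‖ ^ 2 / 2 + ‖b d'‖ ^ 2 / 2 := by nlinarith [sq_nonneg (‖b d‖ - ‖b d'‖)]
      calc ‖b d‖ * ‖b d'‖ * W d d' ≤ (‖b d‖ ^ 2 / 2 + ‖b d'‖ ^ 2 / 2) * W d d' := mul_le_mul_of_nonneg_right h2 (hW0 d d')
        _ = _ := by ring
    have h3 : ∑ d ∈ D, ∑ d' ∈ D, ‖b d'‖ ^ 2 / 2 * W d d' = ∑ d ∈ D, ∑ d' ∈ D, ‖b d‖ ^ 2 / 2 * W d d' := by
      rw [Finset.sum_comm]
      exact Finset.sum_congr rfl fun d _ => Finset.sum_congr rfl fun d' _ => by rw [hWs d' d]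
    have h4 : ∑ d ∈ D, ∑ d' ∈ D, (‖b d‖ ^ 2 / 2 * W d d' + ‖b d'‖ ^ 2 / 2 * W d d') = ∑ d ∈ D, ‖b d‖ ^ 2 * ∑ d' ∈ D, W d d' := by
      simp only [Finset.sum_add_distrib]
      rw [h3, ← Finset.sum_add_distrib]
      refine Finset.sum_congr rfl fun d _ => ?_
      rw [Finset.mul_sum, ← Finset.sum_add_distrib]
      exact Finset.sum_congr rfl fun d' _ => by ring
    refine h1.trans ?_
    rw [h4, Finset.mul_sum]
    refine Finset.sum_le_sum fun d hd => ?_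
    rw [mul_comm Q2]
    exact mul_le_mul_of_nonneg_left (hWq d hd) (by positivity)
  -- the comparison
  have hpt : ∀ d d' : ℤ, A d d' ≤ (1 / H) * (A d d' * max 0 (((2 * (H : ℤ) : ℤ) : ℝ) - |(d : ℝ) - d'|) - A d d' * max 0 ((((H : ℤ)) : ℝ) - |(d : ℝ) - d'|)) + ‖b d‖ * ‖b d'‖ * W d d' := by
    intro d d'
    have hc : (((2 * (H : ℤ) : ℤ) : ℝ)) = 2 * (H : ℝ) := by push_cast; ring
    have hc1 : ((((H : ℤ)) : ℝ)) = (H : ℝ) := by push_cast; ring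
    rw [hc, hc1]
    have hk : (((|d' - d| : ℤ)) : ℝ) = |(d : ℝ) - d'| := by
      push_cast; rw [abs_sub_comm]
    by_cases hh : (H : ℤ) ≤ |d' - d|
    · have h1 : (H : ℝ) ≤ |(d : ℝ) - d'| := by rw [← hk]; exact_mod_cast hh
      have hWe : W d d' = ‖NFR_K lam V ((d' : ℝ) - (d : ℝ))‖ := by simp only [hW]; rw [if_pos hh]
      rw [hWe, max_eq_left (by linarith : (H : ℝ) - |(d : ℝ) - d'| ≤ 0), mul_zero, sub_zero]
      have h2 := hK d d'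
      set k := |(d : ℝ) - d'| with hkk
      set m := max 0 (2 * (H : ℝ) - k) with hm
      have hm0 : 0 ≤ m := le_max_left _ _
      have hm1 : m ≤ H := max_le (by linarith) (by linarith)
      have h3 : A d d' - 1 / H * (A d d' * m) = A d d' * (1 - m / H) := by ring
      have h4 : 0 ≤ 1 - m / H := by
        rw [sub_nonneg, div_le_one (by linarith)]; exact hm1
      have h5 : 1 - m / H ≤ 1 := by
        have : 0 ≤ m / H := by positivity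
        linarith
      have h6 : A d d' * (1 - m / H) ≤ |A d d'| := by
        calc A d d' * (1 - m / H) ≤ |A d d'| * (1 - m / H) := mul_le_mul_of_nonneg_right (le_abs_self _) h4
          _ ≤ |A d d'| * 1 := mul_le_mul_of_nonneg_left h5 (abs_nonneg _)
          _ = _ := mul_one _
      linarith
    · have h1 : |(d : ℝ) - d'| ≤ (H : ℝ) := by
        rw [← hk]; push Not at hh; exact_mod_cast hh.le
      have hWe : W d d' = 0 := by simp only [hW]; rw [if_neg hh]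
      rw [hWe, mul_zero, add_zero, max_eq_right (by linarith : 0 ≤ 2 * (H : ℝ) - |(d : ℝ) - d'|), max_eq_right (by linarith : 0 ≤ (H : ℝ) - |(d : ℝ) - d'|)]
      have h3 : (H : ℝ) ≠ 0 := by linarith
      have h4 : 1 / (H : ℝ) * (A d d' * (2 * (H : ℝ) - |(d : ℝ) - d'|) - A d d' * ((H : ℝ) - |(d : ℝ) - d'|)) = A d d' := by
        have h5 : A d d' * (2 * (H : ℝ) - |(d : ℝ) - d'|) - A d d' * ((H : ℝ) - |(d : ℝ) - d'|) = (H : ℝ) * A d d' := by ring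
        rw [h5, ← mul_assoc, one_div, inv_mul_cancel₀ h3, one_mul]
      exact h4.ge
  rw [NFR_exp lam V hV]
  calc ∑ d ∈ D, ∑ d' ∈ D, A d d'
      ≤ ∑ d ∈ D, ∑ d' ∈ D, ((1 / H) * (A d d' * max 0 (((2 * (H : ℤ) : ℤ) : ℝ) - |(d : ℝ) - d'|) - A d d' * max 0 ((((H : ℤ)) : ℝ) - |(d : ℝ) - d'|)) + ‖b d‖ * ‖b d'‖ * W d d') :=
        Finset.sum_le_sum fun d _ => Finset.sum_le_sum fun d' _ => hpt d d'
    _ = (1 / H) * (∑ d ∈ D, ∑ d' ∈ D, A d d' * max 0 (((2 * (H : ℤ) : ℤ) : ℝ) - |(d : ℝ) - d'|) - ∑ d ∈ D, ∑ d' ∈ D, A d d' * max 0 ((((H : ℤ)) : ℝ) - |(d : ℝ) - d'|)) + ∑ d ∈ D, ∑ d' ∈ D, ‖b d‖ * ‖b d'‖ * W d d' := by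
        simp only [Finset.sum_add_distrib, ← Finset.mul_sum, Finset.sum_sub_distrib]
    _ ≤ (1 / H) * (Q1 * (2 * H) * ∑ d ∈ D, ‖b d‖ ^ 2) + Q2 * ∑ d ∈ D, ‖b d‖ ^ 2 := by
        have h7 : 0 ≤ 1 / (H : ℝ) := by positivity
        have h8 := mul_le_mul_of_nonneg_left (sub_le_sub hn hz) h7
        rw [sub_zero] at h8
        linarith
    _ = (2 * Q1 + Q2) * ∑ d ∈ D, ‖b d‖ ^ 2 := by
        have h3 : (H : ℝ) ≠ 0 := by linarith
        field_simp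

end

end Pool.Agent.LP
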